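import Pool.Agent.T9h64.NK.N5
import Pool.Agent.T9h36.N1.Spec

/-!
# Project NK (slope 1), pieces N5 and N1 in the form of the specification
-/

set_option autoImplicit false

open Set
open scoped RealInnerProductSpace

namespace Pool.Agent.T9h64.N1

open Pool.Agent.T9h98.DC Pool.Agent.T9h44.NK Pool.Agent.T9h48.NK Pool.Agent.T9h36.N1
open Pool.Agent.T9h64.NK

/-- the chain `{w} ⊂ [w, y]` -/
def edgeCh (hF : S_FACES) {d : ℕ} {P : Set (E (d + 1))} (hP : IsPolytope P) {w y : E (d + 1)}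
    (hy : Adj P w y) : Ch P (1 + 1) where
  face := Fin.cases {w} (fun _ => segment ℝ w y)
  isFace := by
    intro i
    refine Fin.cases ?_ (fun i => ?_) i
    · exact ((hF (d + 1) P hP.1).2.2.2.2.2.2.2.2.1 w y hy).1
    · exact hy.2
  dim := by
    intro i
    refine Fin.cases ?_ (fun i => ?_) i
    · show dm ({w} : Set (E (d + 1))) = 0
      unfold dm
      rw [vectorSpan_singleton, finrank_bot]
    · have h1 := ((hF (d + 1) P hP.1).2.2.2.2.2.2.2.2.1 w y hy).2.2.2
      have h2 : i = 0 := Subsingleton.elim _ _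
      subst h2
      exact h1
  mono := by
    intro i j
    refine Fin.cases ?_ (fun i => ?_) i
    · refine Fin.cases ?_ (fun j => ?_) j
      · intro _
        exact le_rfl
      · intro _
        show {w} ⊆ segment ℝ w y
        rw [singleton_subset_iff]
        exact left_mem_segment ℝ w y
    · refine Fin.cases ?_ (fun j => ?_) j
      · intro h
        exact absurd h (by simp)
      · intro _
        exact le_rfl

theorem tr_nb (hF : S_FACES) {d : ℕ} {P : Set (E (d + 1))}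
    {H : Subgroup (E (d + 1) ≃ₗᵢ[ℝ] E (d + 1))} (hP : IsPolytope P) (hH : Pres H P)
    {w v : E (d + 1)} (hv : Adj P w v) (h : CT 1 H P w) :
    ∀ y, Adj P w y → ∃ h ∈ H, h w = w ∧ h y = v := by
  intro y hy
  obtain ⟨-, -, -, -, -, -, -, h8, h9, h10⟩ := hF (d + 1) P hP.1
  obtain ⟨k, hk, hk'⟩ := h (edgeCh hF hP hy) (edgeCh hF hP hv) rfl rfl
  have kw : k w = w := fix_of_chain (edgeCh hF hP hy) (edgeCh hF hP hv) rfl rfl hk'
  refine ⟨k, hk, kw, ?_⟩
  have h1 : k '' segment ℝ w y = segment ℝ w v := hk' (Fin.succ 0)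
  have h2 : k y ∈ segment ℝ w v := by
    rw [← h1]
    exact ⟨y, right_mem_segment ℝ w y, rfl⟩
  have h3 : Vx P (k y) := by
    have := face_image k (hH k hk) (h9 w y hy).2.1
    rw [image_singleton] at this
    exact this
  rcases h10 w v hv (k y) h3 h2 with h | h
  · exact absurd (k.injective (h.trans kw.symm)) (Ne.symm hy.1)
  · exact h

/-- **N5** -/
theorem n5 (hF : S_FACES) (hVF : S_VF) (hSH : S_SH) : S_N5 := by
  intro d P H v n w n' ι ι' j hP hH hv hw hadj hPT h1
  obtain ⟨v1, v2, v3, v4, v5⟩ := hv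
  obtain ⟨w1, w2, w3, w4, w5⟩ := hw
  have c1 : CT 1 H P w := ct_of_pt hVF hSH hP hH w1 w2 w3 w4 w5 h1
  have c2 : CT (j + 1) H P v := ct_of_pt hVF hSH hP hH v1 v2 v3 v4 v5 hPT
  exact pt_of_ct hSH hP w1 w2 w3 w4 w5
    (ct_nb hF hP hH hadj (tr_nb hF hP hH hadj c1) (by omega) c2)

/-- **N1** -/
theorem n1 (hSH : S_SH) : S_N1 := by
  intro d P H v n w n' ι ι' k m hP hH hv hw hne hFew hnot
  obtain ⟨v1, v2, v3, v4, v5⟩ := hv
  obtain ⟨w1, w2, w3, w4, w5⟩ := hw
  refine few_add hSH hP w1 w2 w3 w4 w5 v1 v2 v3 v4 v5 ?_ m k ?_ hnot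
  · intro h hh e
    refine hne h⁻¹ (H.inv_mem hh) ?_
    rw [← e]
    exact h.symm_apply_apply w
  · have e : m + k + 1 = k + m + 1 := by ring
    rw [e]
    exact hFew

end Pool.Agent.T9h64.N1
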