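import Pool.Agent.T9h44.N1.Fin
import Pool.Agent.T9h64.NK.RecX

/-!
# Project NK, slope 1: the form which starts from `N_2` and `N_3`

If there are no geometrically 2-orbit `d`-polytopes for `d ≥ D - 1` and no 3-orbit `d`-polytopes for `d ≥ D`, where
`D ≥ 12`, then every `k`-orbit `d`-polytope, `k ≥ 2`, has `d < k + D + 3`.
-/

set_option autoImplicit false

open Set
open scoped RealInnerProductSpace

namespace Pool.Agent.T9h64.N1

open Pool.Agent.T9h98.DC Pool.Agent.T9h98.NK Pool.Agent.T9h44.NK Pool.Agent.T9h46.NK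
  Pool.Agent.T9h36.N1 Pool.Agent.T9h44.N1

theorem mk3_of_free (D : ℕ) (hD : 12 ≤ D)
    (hno : ∀ j, 2 ≤ j → j ≤ 3 → ∀ d, D + j ≤ d + 3 → ∀ P : Set (E d), ¬ IsKOrbit j P) :
    MK 3 (D - 1) := by
  have h := Pool.Agent.T9h64.NK.md_base fFaces fVF fInv fIota fTR fExt fMono fLL7 fStep fTrans
    3 D (by norm_num) (by omega) hno
  intro n hn P H hP hH hF
  exact h n (by omega) P H hP hH hF

/-- a group which is not transitive on the vertices: one orbit more costs one dimension -/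
theorem mnt_succ {k N : ℕ} (hN : 8 ≤ N) (hk : MK k N) : MNT (k + 1) (N + 1) := by
  intro n hn P H hP hH hFew htr
  obtain ⟨m, rfl⟩ : ∃ m, n = m + 1 := ⟨n - 1, by omega⟩
  obtain ⟨v₀, w₀, hv₀, hw₀, hne⟩ := htr
  apply fStep (m + 1) P H (by omega) hP hH
  intro v hv
  obtain ⟨a, ha, hs, hfix⟩ := fInv (m + 1 + 1) P v H hP.1 hv (exists_ne hP v) hH
  obtain ⟨ι, hι, -⟩ := fIota (m + 1) a ha
  refine ⟨a, ι, hs, ha, hι, hfix, ?_⟩
  obtain ⟨t1, -, -, -, t5⟩ := fTR (m + 1) P H v a ι hP hH hv hs ha hι hfix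
  have hex : ∃ w, Vx P w ∧ ∀ h ∈ H, h v ≠ w := by
    by_contra hcon
    push Not at hcon
    obtain ⟨g1, hg1, e1⟩ := hcon v₀ hv₀
    obtain ⟨g2, hg2, e2⟩ := hcon w₀ hw₀
    apply hne (g2 * g1⁻¹) (H.mul_mem hg2 (H.inv_mem hg1))
    change g2 (g1.symm v₀) = w₀
    rw [← e1, g1.symm_apply_apply, e2]
  have hfig := (fVF (m + 1) P v a ι hP hv hs ha hι).1
  exact hk m (by omega) _ _ hfig t1 (t5 k hFew hex)

theorem mnt_mono {k N M : ℕ} (h : N ≤ M) (hk : MNT k N) : MNT k M :=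
  fun n hn P H hP hH hF hT => hk n (h.trans hn) P H hP hH hF hT

theorem mnt4 (hST : S_ST) (hUP : S_UP) {N₁ N : ℕ} (h9 : 9 ≤ N₁) (h3 : MK 3 N₁) (hN : N₁ + 3 ≤ N)
    (h15 : 15 ≤ N) : ∀ j : ℕ, MNT (j + 4) (j + N) := by
  intro j
  induction j using Nat.strong_induction_on with
  | _ j ih =>
    cases j with
    | zero =>
      have h := mnt_succ (by omega : 8 ≤ N₁) h3
      exact mnt_mono (by omega) h
    | succ j =>
      have h := hST (j + 4) (j + N) 3 10 N₁ (by omega) (by omega) (by omega) h9 llg4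
        h3 (fun k' hk' hk'' => by
          rcases Nat.lt_or_ge k' 4 with h4 | h4
          · exact mk_mono (by omega) (by omega) h3
          · obtain ⟨i, rfl⟩ : ∃ i, k' = i + 4 := ⟨k' - 4, by omega⟩
            exact mk_mono le_rfl (by omega)
              (hUP (i + 4) (i + N) 3 10 (by omega) llg4 (by omega) (ih i (by omega))))
        (ih j (by omega))
      have e1 : j + 4 + 1 = j + 1 + 4 := by ring
      have e2 : j + N + 1 = j + 1 + N := by ring
      rw [e1, e2] at h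
      exact h

/-- **the bound with slope 1 from `N_2`, `N_3`** -/
theorem rec1 (hST : S_ST) (hUP : S_UP) (D : ℕ) (hD : 12 ≤ D)
    (hno : ∀ j, 2 ≤ j → j ≤ 3 → ∀ d, D + j ≤ d + 3 → ∀ P : Set (E d), ¬ IsKOrbit j P)
    (k d : ℕ) (hk : 2 ≤ k) (P : Set (E d)) (hP : IsKOrbit k P) : d < k + D + 3 := by
  have h3 := mk3_of_free D hD hno
  by_contra hcon
  push Not at hcon
  obtain ⟨n, rfl⟩ : ∃ n, d = n + 1 := ⟨d - 1, by omega⟩
  rcases Nat.lt_or_ge k 4 with h4 | h4
  · exact no_of_mk fTrans fOne fFts fFto fFtc 3 (D - 1) h3 n (by omega) k hk (by omega) P hP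
  · obtain ⟨j, rfl⟩ : ∃ j, k = j + 4 := ⟨k - 4, by omega⟩
    exact no_of_mk fTrans fOne fFts fFto fFtc (j + 4) (j + (D + 3) + 3)
      (hUP (j + 4) (j + (D + 3)) 3 10 (by omega) llg4 (by omega)
        (mnt4 hST hUP (by omega) h3 (by omega) (by omega) j)) n (by omega) (j + 4) hk
      le_rfl P hP

end Pool.Agent.T9h64.N1
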